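import Pool.Agent.helper97.IRO.Spec

/-! Row iro:HOL (MP_90e158_lc): Hoelder's theorem. -/

set_option autoImplicit false

namespace Pool.Agent.IRO

section

variable {G : Type} [Group G] {P : G → Prop}

/-- the order -/
def HOL_L (P : G → Prop) (a b : G) : Prop := P (a⁻¹ * b)

theorem HOL_one (hP : Cone P) : ¬ P 1 := fun h => hP.anti 1 h (by rwa [inv_one])

theorem HOL_irr (hP : Cone P) (a : G) : ¬ HOL_L P a a := by
  unfold HOL_L
  rw [inv_mul_cancel]
  exact HOL_one hP

theorem HOL_trans (hP : Cone P) {a b c : G} (h1 : HOL_L P a b) (h2 : HOL_L P b c) :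
    HOL_L P a c := by
  have h := hP.mul _ _ h1 h2
  have e : a⁻¹ * b * (b⁻¹ * c) = a⁻¹ * c := by group
  rw [e] at h
  exact h

theorem HOL_left {a b : G} (c : G) (h : HOL_L P a b) : HOL_L P (c * a) (c * b) := by
  unfold HOL_L at h ⊢
  have e : (c * a)⁻¹ * (c * b) = a⁻¹ * b := by group
  rw [e]
  exact h

theorem HOL_right (hn : ∀ g h, P g → P (h * g * h⁻¹)) {a b : G} (c : G) (h : HOL_L P a b) :
    HOL_L P (a * c) (b * c) := by
  unfold HOL_L at h ⊢
  have h1 := hn _ c⁻¹ h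
  have e : c⁻¹ * (a⁻¹ * b) * c⁻¹⁻¹ = (a * c)⁻¹ * (b * c) := by group
  rw [e] at h1
  exact h1

theorem HOL_tri (hP : Cone P) (a b : G) : a = b ∨ HOL_L P a b ∨ HOL_L P b a := by
  by_cases h : a = b
  · exact Or.inl h
  · right
    have h1 : a⁻¹ * b ≠ 1 := fun h2 => h (inv_mul_eq_one.1 h2)
    rcases hP.tri _ h1 with h2 | h2
    · exact Or.inl h2
    · right
      have e : (a⁻¹ * b)⁻¹ = b⁻¹ * a := by group
      rw [e] at h2
      exact h2

/-- the weak order -/
def HOL_W (P : G → Prop) (a b : G) : Prop := a = b ∨ HOL_L P a b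

theorem HOL_not (hP : Cone P) {a b : G} (h : ¬ HOL_L P a b) : HOL_W P b a := by
  rcases HOL_tri hP a b with h1 | h1 | h1
  · exact Or.inl h1.symm
  · exact absurd h1 h
  · exact Or.inr h1

theorem HOL_Wtrans (hP : Cone P) {a b c : G} (h1 : HOL_W P a b) (h2 : HOL_W P b c) :
    HOL_W P a c := by
  rcases h1 with rfl | h1
  · exact h2
  · rcases h2 with rfl | h2
    · exact Or.inr h1
    · exact Or.inr (HOL_trans hP h1 h2)

theorem HOL_Wleft {a b : G} (c : G) (h : HOL_W P a b) : HOL_W P (c * a) (c * b) := by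
  rcases h with rfl | h
  · exact Or.inl rfl
  · exact Or.inr (HOL_left c h)

theorem HOL_Wright (hn : ∀ g h, P g → P (h * g * h⁻¹)) {a b : G} (c : G) (h : HOL_W P a b) :
    HOL_W P (a * c) (b * c) := by
  rcases h with rfl | h
  · exact Or.inl rfl
  · exact Or.inr (HOL_right hn c h)

/-- `z ^ m ≤ x < z ^ (m + 1)` -/
theorem HOL_arch (hP : Cone P) (ha : ∀ g h, P g → ∃ n : ℕ, P (h⁻¹ * g ^ n)) {z x : G} (hz : P z)
    (hx : P x) : ∃ m : ℕ, HOL_W P (z ^ m) x ∧ HOL_L P x (z ^ (m + 1)) := by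
  classical
  have hex : ∃ n : ℕ, HOL_L P x (z ^ n) := ha z x hz
  have h1 := Nat.find_spec hex
  have h2 : Nat.find hex ≠ 0 := by
    intro h0
    rw [h0, pow_zero] at h1
    unfold HOL_L at h1
    rw [mul_one] at h1
    exact hP.anti x hx h1
  obtain ⟨m, hm⟩ := Nat.exists_eq_succ_of_ne_zero h2
  refine ⟨m, ?_, ?_⟩
  · exact HOL_not hP (Nat.find_min hex (by omega))
  · rw [hm] at h1
    exact h1

/-- positive elements commute -/
theorem HOL_pos (hP : Cone P) (hn : ∀ g h, P g → P (h * g * h⁻¹))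
    (ha : ∀ g h, P g → ∃ n : ℕ, P (h⁻¹ * g ^ n)) {x y : G} (hx : P x) (hy : P y) :
    ¬ HOL_L P (y * x) (x * y) := by
  intro hc
  obtain ⟨c, hcdef⟩ : ∃ c, c = (y * x)⁻¹ * (x * y) := ⟨_, rfl⟩
  have hcP : P c := by rw [hcdef]; exact hc
  have hxy : x * y = y * x * c := by rw [hcdef]; group
  by_cases hA : ∃ z, P z ∧ HOL_W P (z * z) c
  · obtain ⟨z, hz, hzc⟩ := hA
    obtain ⟨m, hm1, hm2⟩ := HOL_arch hP ha hz hx
    obtain ⟨n, hn1, hn2⟩ := HOL_arch hP ha hz hy
    have up : HOL_L P (x * y) (z ^ (m + 1) * z ^ (n + 1)) :=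
      HOL_trans hP (HOL_right hn y hm2) (HOL_left _ hn2)
    have lo : HOL_W P (z ^ n * z ^ m * (z * z)) (x * y) := by
      rw [hxy]
      refine HOL_Wtrans hP (HOL_Wright hn (z * z) (HOL_Wright hn (z ^ m) hn1)) ?_
      refine HOL_Wtrans hP (HOL_Wright hn (z * z) (HOL_Wleft y hm1)) ?_
      exact HOL_Wleft (y * x) hzc
    have e : z ^ n * z ^ m * (z * z) = z ^ (m + 1) * z ^ (n + 1) := by
      rw [← pow_two, ← pow_add, ← pow_add, ← pow_add]
      congr 1
      omega
    rw [e] at lo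
    rcases lo with lo | lo
    · rw [lo] at up
      exact HOL_irr hP _ up
    · exact HOL_irr hP _ (HOL_trans hP up lo)
  · push Not at hA
    -- `c` is the least positive element
    have hleast : ∀ w, P w → ¬ HOL_L P w c := by
      intro w hw hwc
      have h1 : HOL_L P c (w * w) := by
        rcases HOL_tri hP c (w * w) with h | h | h
        · exact absurd (Or.inl h.symm) (hA w hw)
        · exact h
        · exact absurd (Or.inr h) (hA w hw)
      have hz : P (w⁻¹ * c) := hwc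
      have h2 : HOL_L P (w⁻¹ * c) w := by
        unfold HOL_L at h1 ⊢
        have e : (w⁻¹ * c)⁻¹ * w = c⁻¹ * (w * w) := by group
        rw [e]
        exact h1
      have h3 := HOL_right hn (w⁻¹ * c) h2
      have e : w * (w⁻¹ * c) = c := by group
      rw [e] at h3
      exact hA _ hz (Or.inr h3)
    have hpow : ∀ w, P w → ∃ m : ℕ, w = c ^ m := by
      intro w hw
      obtain ⟨m, hm1, hm2⟩ := HOL_arch hP ha hcP hw
      refine ⟨m, ?_⟩
      rcases hm1 with h | h
      · exact h.symm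
      · exfalso
        refine hleast ((c ^ m)⁻¹ * w) h ?_
        unfold HOL_L at hm2 ⊢
        have e : ((c ^ m)⁻¹ * w)⁻¹ * c = w⁻¹ * c ^ (m + 1) := by
          rw [pow_succ]
          group
        rw [e]
        exact hm2
    obtain ⟨m, rfl⟩ := hpow x hx
    obtain ⟨n, rfl⟩ := hpow y hy
    have e : c ^ n * c ^ m = c ^ m * c ^ n := by rw [← pow_add, ← pow_add, add_comm]
    rw [e] at hc
    exact HOL_irr hP _ hc

end

theorem HOL : HOL_stmt := by
  intro G _ P hP hn ha
  have hpos : ∀ x y, P x → P y → Commute x y := by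
    intro x y hx hy
    rcases HOL_tri hP (y * x) (x * y) with h | h | h
    · exact h.symm
    · exact absurd h (HOL_pos hP hn ha hx hy)
    · exact absurd h (HOL_pos hP hn ha hy hx)
  intro g h
  by_cases hg : g = 1
  · rw [hg, one_mul, mul_one]
  by_cases hh : h = 1
  · rw [hh, one_mul, mul_one]
  rcases hP.tri g hg with h1 | h1 <;> rcases hP.tri h hh with h2 | h2
  · exact hpos g h h1 h2
  · exact Commute.inv_right_iff.1 (hpos g h⁻¹ h1 h2)
  · exact Commute.inv_left_iff.1 (hpos g⁻¹ h h1 h2)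
  · exact Commute.inv_left_iff.1 (Commute.inv_right_iff.1 (hpos g⁻¹ h⁻¹ h1 h2))

end Pool.Agent.IRO
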